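import Mathlib

/-!
# Limit points of normalised patterns which are repeated along progressions

If for arbitrarily large `Y` at least `c (log Y) ^ m` patterns `g` of size `C log Y` occur, each at many places
`a ≤ Y` (with repetition along a progression), then the set of the limit points of the vectors `Φ a / log a`
has Lebesgue measure at least `c`.
-/

set_option autoImplicit false

open Finset MeasureTheory Filter

namespace Pool.Agent.U621.RL

/-- the limit points of the vectors `Φ a / log a` over the places `a` at which `Φ` is constant along a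
progression `a, a + d, ..., a + (k - 1) d` of elements of `S` with `1 ≤ d ≤ (log a) ^ B` -/
def Lim {m : ℕ} (k B : ℕ) (S : Set ℕ) (Φ : ℕ → Fin m → ℕ) : Set (Fin m → ℝ) :=
  {x | ∀ ε : ℝ, 0 < ε → ∀ N : ℕ, ∃ a d : ℕ, N ≤ a ∧ 1 ≤ d ∧ (d : ℝ) ≤ Real.log a ^ B ∧
    (∀ j < k, a + j * d ∈ S ∧ Φ (a + j * d) = Φ a) ∧ ∀ i, |(Φ a i : ℝ) / Real.log a - x i| < ε}

theorem ev (B : ℕ) (N C ε : ℝ) (hε : 0 < ε) : ∀ᶠ Y : ℕ in atTop,
    1 ≤ Real.log Y ∧ 2 ^ (B + 1) ≤ Real.log Y ∧ (B + 1) * Real.log (Real.log Y) ≤ Real.log Y / 2 ∧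
    C * (2 * (B + 1) * Real.log (Real.log Y) / Real.log Y) < ε / 2 ∧ 1 / Real.log Y < ε / 2 ∧
    N ≤ Y / Real.log Y ^ (B + 1) ∧ 2 ≤ Y / Real.log Y ^ (B + 1) ∧ 2 ≤ Real.log Y := by
  have hlog : Tendsto (fun Y : ℕ => Real.log Y) atTop atTop :=
    Real.tendsto_log_atTop.comp tendsto_natCast_atTop_atTop
  have hll : Tendsto (fun L : ℝ => Real.log L / L) atTop (nhds 0) := by
    have := Real.isLittleO_log_id_atTop.tendsto_div_nhds_zero
    simpa using this
  have h3 : ∀ᶠ L : ℝ in atTop, Real.log L / L < 1 / (2 * (B + 1)) :=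
    hll.eventually (gt_mem_nhds (by positivity))
  have h4 : Tendsto (fun L : ℝ => C * (2 * (B + 1) * (Real.log L / L))) atTop (nhds 0) := by
    have := (hll.const_mul (2 * ((B : ℝ) + 1))).const_mul C
    simpa using this
  have h4' : ∀ᶠ L : ℝ in atTop, C * (2 * (B + 1) * (Real.log L / L)) < ε / 2 :=
    h4.eventually (gt_mem_nhds (by positivity))
  have h5 : ∀ᶠ L : ℝ in atTop, 1 / L < ε / 2 := by
    have : Tendsto (fun L : ℝ => 1 / L) atTop (nhds 0) := by
      simpa using tendsto_inv_atTop_zero (𝕜 := ℝ)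
    exact this.eventually (gt_mem_nhds (by positivity))
  have h6 : Tendsto (fun Y : ℕ => (Y : ℝ) / Real.log Y ^ (B + 1)) atTop atTop := by
    have h7 := (Real.tendsto_exp_div_pow_atTop (B + 1)).comp hlog
    refine h7.congr' ?_
    filter_upwards [eventually_ge_atTop 1] with Y hY
    have : (0 : ℝ) < Y := by exact_mod_cast hY
    simp only [Function.comp_apply, Real.exp_log this]
  filter_upwards [hlog.eventually (eventually_ge_atTop 1), hlog.eventually (eventually_ge_atTop (2 ^ (B + 1))),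
    hlog.eventually h3, hlog.eventually h4', hlog.eventually h5, h6.eventually (eventually_ge_atTop N),
    h6.eventually (eventually_ge_atTop 2), hlog.eventually (eventually_ge_atTop 2)] with Y e1 e2 e3 e4 e5 e6 e7 e8
  refine ⟨e1, e2, ?_, ?_, e5, e6, e7, e8⟩
  · rw [div_lt_div_iff₀ (by linarith) (by positivity)] at e3
    linarith
  · have : 2 * ((B : ℝ) + 1) * Real.log (Real.log Y) / Real.log Y =
        2 * (B + 1) * (Real.log (Real.log Y) / Real.log Y) := by ring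
    rw [this]
    exact e4

/-- an element of a large set of integers up to `Y` which is not small -/
theorem exists_large {Y B : ℕ} (W : Finset ℕ) (hW : ∀ a ∈ W, a ≤ Y) (hY : 2 ≤ Y / Real.log Y ^ (B + 1))
    (hL : 2 ≤ Real.log Y) (hc : Y / Real.log Y ^ B ≤ W.card) :
    ∃ a ∈ W, (Y : ℝ) / Real.log Y ^ (B + 1) ≤ a := by
  by_contra hcon
  push Not at hcon
  have hL0 : 0 < Real.log Y := by linarith
  have h1 : W ⊆ range (⌊(Y : ℝ) / Real.log Y ^ (B + 1)⌋₊ + 1) := by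
    intro a ha
    rw [mem_range, Nat.lt_succ_iff]
    exact Nat.le_floor (hcon a ha).le
  have h2 := card_le_card h1
  rw [card_range] at h2
  have h3 : (W.card : ℝ) ≤ Y / Real.log Y ^ (B + 1) + 1 := by
    have h4 := Nat.floor_le (show 0 ≤ (Y : ℝ) / Real.log Y ^ (B + 1) by positivity)
    have h5 : (W.card : ℝ) ≤ (⌊(Y : ℝ) / Real.log Y ^ (B + 1)⌋₊ : ℝ) + 1 := by exact_mod_cast h2
    linarith
  have h4 : (Y : ℝ) / Real.log Y ^ B = Y / Real.log Y ^ (B + 1) * Real.log Y := by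
    rw [pow_succ]; field_simp
  rw [h4] at hc
  nlinarith

theorem step {m k B Y : ℕ} {N C ε : ℝ} {S : Set ℕ} {Φ : ℕ → Fin m → ℕ} {x : Fin m → ℝ} {g : Fin m → ℕ}
    (hk : 1 ≤ k) (hε : 0 < ε) (hC : 0 ≤ C)
    (hY : 1 ≤ Real.log Y ∧ 2 ^ (B + 1) ≤ Real.log Y ∧ (B + 1) * Real.log (Real.log Y) ≤ Real.log Y / 2 ∧
      C * (2 * (B + 1) * Real.log (Real.log Y) / Real.log Y) < ε / 2 ∧ 1 / Real.log Y < ε / 2 ∧
      N ≤ Y / Real.log Y ^ (B + 1) ∧ 2 ≤ Y / Real.log Y ^ (B + 1) ∧ 2 ≤ Real.log Y)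
    (hg : ∀ i, (g i : ℝ) ≤ C * Real.log Y)
    (hx : ∀ i, (g i : ℝ) / Real.log Y ≤ x i ∧ x i < (g i + 1) / Real.log Y)
    (W : Finset ℕ) (hW : ∀ a ∈ W, a ≤ Y) (hWc : Y / Real.log Y ^ B ≤ W.card)
    (hWd : ∀ a ∈ W, ∃ d : ℕ, 1 ≤ d ∧ (d : ℝ) ≤ Real.log Y ^ B ∧ ∀ j < k, a + j * d ∈ S ∧ Φ (a + j * d) = g) :
    ∃ a d : ℕ, N ≤ a ∧ 1 ≤ d ∧ (d : ℝ) ≤ Real.log a ^ (B + 1) ∧
      (∀ j < k, a + j * d ∈ S ∧ Φ (a + j * d) = Φ a) ∧ ∀ i, |(Φ a i : ℝ) / Real.log a - x i| < ε := by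
  obtain ⟨e1, e2, e3, e4, e5, e6, e7, e8⟩ := hY
  obtain ⟨a, ha, haY⟩ := exists_large W hW e7 e8 hWc
  obtain ⟨d, hd1, hd2, hd3⟩ := hWd a ha
  have hL0 : 0 < Real.log Y := by linarith
  have hYpos : (0 : ℝ) < Y := by
    rcases Nat.eq_zero_or_pos Y with h | h
    · rw [h] at e8
      norm_num at e8
    · exact_mod_cast h
  have ha0 : (0 : ℝ) < a := by linarith
  have hla : Real.log Y - (B + 1) * Real.log (Real.log Y) ≤ Real.log a := by
    have h1 : Real.log ((Y : ℝ) / Real.log Y ^ (B + 1)) =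
        Real.log Y - (B + 1) * Real.log (Real.log Y) := by
      rw [Real.log_div hYpos.ne' (by positivity), Real.log_pow]
      push_cast
      ring
    rw [← h1]
    exact Real.log_le_log (by positivity) haY
  have hla2 : Real.log Y / 2 ≤ Real.log a := by linarith
  have hlaY : Real.log a ≤ Real.log Y := Real.log_le_log ha0 (by exact_mod_cast hW a ha)
  have hla0 : 0 < Real.log a := by linarith
  have hΦ : Φ a = g := by
    have := (hd3 0 (by omega)).2
    rwa [zero_mul, add_zero] at this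
  refine ⟨a, d, e6.trans haY, hd1, ?_, fun j hj => ?_, fun i => ?_⟩
  · calc (d : ℝ) ≤ Real.log Y ^ B := hd2
      _ = 2 ^ (B + 1) * Real.log Y ^ B / 2 ^ (B + 1) := by field_simp
      _ ≤ Real.log Y * Real.log Y ^ B / 2 ^ (B + 1) := by gcongr
      _ = (Real.log Y / 2) ^ (B + 1) := by rw [div_pow, pow_succ]; ring
      _ ≤ Real.log a ^ (B + 1) := by gcongr
  · rw [hΦ]
    exact hd3 j hj
  · rw [hΦ]
    obtain ⟨h1, h2⟩ := hx i
    have hg0 : (0 : ℝ) ≤ g i := Nat.cast_nonneg _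
    have h3 : (g i : ℝ) / Real.log Y ≤ g i / Real.log a :=
      div_le_div_of_nonneg_left hg0 hla0 hlaY
    have h4 : (g i : ℝ) / Real.log a - g i / Real.log Y ≤
        C * (2 * (B + 1) * Real.log (Real.log Y) / Real.log Y) := by
      have e : (g i : ℝ) / Real.log a - g i / Real.log Y =
          (g i / Real.log Y) * ((Real.log Y - Real.log a) / Real.log a) := by
        field_simp
      rw [e]
      have h5 : (g i : ℝ) / Real.log Y ≤ C := (div_le_iff₀ hL0).2 (hg i)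
      have h6 : (Real.log Y - Real.log a) / Real.log a ≤
          2 * (B + 1) * Real.log (Real.log Y) / Real.log Y := by
        calc (Real.log Y - Real.log a) / Real.log a ≤ (Real.log Y - Real.log a) / (Real.log Y / 2) :=
              div_le_div_of_nonneg_left (by linarith) (by linarith) hla2
          _ ≤ ((B + 1) * Real.log (Real.log Y)) / (Real.log Y / 2) := by
              apply div_le_div_of_nonneg_right _ (by linarith)
              linarith
          _ = _ := by field_simp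
      have h7 : 0 ≤ (Real.log Y - Real.log a) / Real.log a := div_nonneg (by linarith) hla0.le
      exact mul_le_mul h5 h6 h7 hC
    have h8 : (g i + 1 : ℝ) / Real.log Y = g i / Real.log Y + 1 / Real.log Y := by ring
    rw [h8] at h2
    rw [abs_lt]
    constructor <;> linarith

/-- the union of the cubes -/
def cubes {m : ℕ} (G : Finset (Fin m → ℕ)) (L : ℝ) : Set (Fin m → ℝ) :=
  ⋃ g ∈ G, Set.pi Set.univ fun i => Set.Ico ((g i : ℝ) / L) ((g i + 1) / L)

theorem mem_cubes {m : ℕ} {G : Finset (Fin m → ℕ)} {L : ℝ} {x : Fin m → ℝ} :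
    x ∈ cubes G L ↔ ∃ g ∈ G, ∀ i, (g i : ℝ) / L ≤ x i ∧ x i < (g i + 1) / L := by
  simp [cubes, Set.mem_pi]

theorem meas_cubes {m : ℕ} (G : Finset (Fin m → ℕ)) (L : ℝ) : MeasurableSet (cubes G L) := by
  unfold cubes
  apply G.measurableSet_biUnion
  intro g _
  exact MeasurableSet.univ_pi fun i => measurableSet_Ico

theorem vol_cubes {m : ℕ} (G : Finset (Fin m → ℕ)) {L : ℝ} (hL : 0 < L) :
    volume (cubes G L) = ENNReal.ofReal (G.card / L ^ m) := by
  classical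
  unfold cubes
  rw [measure_biUnion_finset]
  · have h1 : ∀ g ∈ G, volume (Set.pi Set.univ fun i => Set.Ico ((g i : ℝ) / L) ((g i + 1) / L)) =
        ENNReal.ofReal (1 / L ^ m) := by
      intro g _
      rw [Real.volume_pi_Ico]
      have : ∀ i, ((g i : ℝ) + 1) / L - g i / L = 1 / L := fun i => by ring
      simp only [this]
      rw [prod_const, card_univ, Fintype.card_fin, ← ENNReal.ofReal_pow (by positivity)]
      congr 1
      rw [one_div, one_div, inv_pow]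
    rw [sum_congr rfl h1, sum_const, nsmul_eq_mul, ← ENNReal.ofReal_natCast, ← ENNReal.ofReal_mul (by positivity)]
    congr 1
    ring
  · intro g hg g' hg' hne
    rw [Function.onFun, Set.disjoint_left]
    intro x hx hx'
    apply hne
    funext i
    have h1 := hx i (Set.mem_univ _)
    have h2 := hx' i (Set.mem_univ _)
    rw [Set.mem_Ico, div_le_iff₀ hL, lt_div_iff₀ hL] at h1 h2
    have h3 : (g i : ℝ) < g' i + 1 := lt_of_le_of_lt h1.1 h2.2
    have h4 : (g' i : ℝ) < g i + 1 := lt_of_le_of_lt h2.1 h1.2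
    have h5 : g i < g' i + 1 := by exact_mod_cast h3
    have h6 : g' i < g i + 1 := by exact_mod_cast h4
    omega
  · intro g _
    exact MeasurableSet.univ_pi fun i => measurableSet_Ico

theorem vol_lim {m k B : ℕ} {c C : ℝ} (hk : 1 ≤ k) (hC : 0 ≤ C) {S : Set ℕ} {Φ : ℕ → Fin m → ℕ}
    (h : ∀ N : ℕ, ∃ Y : ℕ, N ≤ Y ∧ ∃ G : Finset (Fin m → ℕ), c * Real.log Y ^ m ≤ G.card ∧
      ∀ g ∈ G, (∀ i, (g i : ℝ) ≤ C * Real.log Y) ∧ ∃ W : Finset ℕ, (∀ a ∈ W, a ≤ Y) ∧
        Y / Real.log Y ^ B ≤ W.card ∧ ∀ a ∈ W, ∃ d : ℕ, 1 ≤ d ∧ (d : ℝ) ≤ Real.log Y ^ B ∧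
          ∀ j < k, a + j * d ∈ S ∧ Φ (a + j * d) = g) :
    ENNReal.ofReal c ≤ volume (Lim k (B + 1) S Φ) := by
  obtain ⟨N₀, hN₀⟩ := eventually_atTop.1 (ev B 0 0 1 one_pos)
  have h' : ∀ n : ℕ, ∃ Y : ℕ, max n N₀ ≤ Y ∧ ∃ G : Finset (Fin m → ℕ), c * Real.log Y ^ m ≤ G.card ∧
      ∀ g ∈ G, (∀ i, (g i : ℝ) ≤ C * Real.log Y) ∧ ∃ W : Finset ℕ, (∀ a ∈ W, a ≤ Y) ∧
        Y / Real.log Y ^ B ≤ W.card ∧ ∀ a ∈ W, ∃ d : ℕ, 1 ≤ d ∧ (d : ℝ) ≤ Real.log Y ^ B ∧
          ∀ j < k, a + j * d ∈ S ∧ Φ (a + j * d) = g := fun n => h (max n N₀)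
  choose Y hY G hG hGg using h'
  have hL1 : ∀ n, 1 ≤ Real.log (Y n) := fun n => (hN₀ (Y n) ((le_max_right _ _).trans (hY n))).1
  have hL0 : ∀ n, 0 < Real.log (Y n) := fun n => by linarith [hL1 n]
  let E : ℕ → Set (Fin m → ℝ) := fun n => cubes (G n) (Real.log (Y n))
  have hEvol : ∀ n, ENNReal.ofReal c ≤ volume (E n) := by
    intro n
    rw [vol_cubes _ (hL0 n)]
    apply ENNReal.ofReal_le_ofReal
    rw [le_div_iff₀ (pow_pos (hL0 n) m)]
    exact hG n
  have hEbox : ∀ n, E n ⊆ Set.Icc (fun _ => 0) (fun _ => C + 1) := by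
    intro n x hx
    obtain ⟨g, hg, hgx⟩ := mem_cubes.1 hx
    have h1 := (hGg n g hg).1
    constructor
    · intro i
      exact (div_nonneg (Nat.cast_nonneg _) (hL0 n).le).trans (hgx i).1
    · intro i
      refine (hgx i).2.le.trans ?_
      rw [div_le_iff₀ (hL0 n)]
      have := h1 i
      have := hL1 n
      linarith
  let F : ℕ → Set (Fin m → ℝ) := fun n => ⋃ j : {j : ℕ // n ≤ j}, E j
  have hFanti : Antitone F := by
    intro n n' hn x hx
    obtain ⟨⟨j, hj⟩, hxj⟩ := Set.mem_iUnion.1 hx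
    exact Set.mem_iUnion.2 ⟨⟨j, hn.trans hj⟩, hxj⟩
  have hFmeas : ∀ n, MeasurableSet (F n) := fun n =>
    MeasurableSet.iUnion fun j => meas_cubes _ _
  have hFbox : ∀ n, F n ⊆ Set.Icc (fun _ => 0) (fun _ => C + 1) := fun n =>
    Set.iUnion_subset fun j => hEbox j
  have hfin : volume (F 0) ≠ ⊤ := by
    refine ne_top_of_le_ne_top ?_ (measure_mono (hFbox 0))
    exact (isCompact_Icc.measure_lt_top).ne
  have hlim := tendsto_measure_iInter_atTop (μ := volume) (s := F)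
    (fun n => (hFmeas n).nullMeasurableSet) hFanti ⟨0, hfin⟩
  have hge : ENNReal.ofReal c ≤ volume (⋂ n, F n) := by
    refine ge_of_tendsto hlim (Eventually.of_forall fun n => ?_)
    exact (hEvol n).trans (measure_mono (Set.subset_iUnion_of_subset ⟨n, le_rfl⟩ subset_rfl))
  refine hge.trans (measure_mono ?_)
  intro x hx ε hε N
  obtain ⟨N₁, hN₁⟩ := eventually_atTop.1 (ev B N C ε hε)
  have hxN := Set.mem_iInter.1 hx N₁
  obtain ⟨⟨n, hn⟩, hxn⟩ := Set.mem_iUnion.1 hxN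
  obtain ⟨g, hg, hgx⟩ := mem_cubes.1 hxn
  obtain ⟨hg1, W, hW1, hW2, hW3⟩ := hGg n g hg
  have hYn : N₁ ≤ Y n := hn.trans ((le_max_left _ _).trans (hY n))
  obtain ⟨a, d, h1, h2, h3, h4, h5⟩ := step hk hε hC (hN₁ (Y n) hYn) hg1 hgx W hW1 hW2 hW3
  exact ⟨a, d, by exact_mod_cast h1, h2, h3, h4, h5⟩

end Pool.Agent.U621.RL
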